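import Pool.Agent.Lib.DC83.Cor2

/-! Number fields of degree `n` and discriminant at most `D` whose Galois group has order at most
`A` and, acting on the `n` embeddings, has a distinguishing colouring with `b ^ r` colours.
The case `β = b`, `A = n !` is `Pool.Agent.DC83.colourExponent`; with an injective colouring it
covers all fields of degree `n ≤ b ^ r` (`Pool.Agent.DC83.logExponent`). -/

namespace Pool.Agent.Results.MP_0b0055_nt.HalfExponent

theorem result :
    ∀ n r b A : ℕ, 2 ≤ n → 1 ≤ r → 2 ≤ A → ∀ β ε : ℝ, 1 < β → β ≤ b → 0 < ε →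
      ∃ C : ℝ, ∀ D : ℕ, 1 ≤ D →
      ∀ m : ℕ, ∀ (K : Fin m → Type) [∀ i, Field (K i)] [∀ i, NumberField (K i)],
        (∀ i, Module.finrank ℚ (K i) = n) →
        (∀ i, (NumberField.discr (K i)).natAbs ≤ D) →
        (∀ i j, i ≠ j → IsEmpty (K i ≃+* K j)) →
        (∀ i, Module.finrank ℚ
          (IntermediateField.normalClosure ℚ (K i) (AlgebraicClosure ℚ)) ≤ A) →
        (∀ i, ∃ c : (K i →ₐ[ℚ] AlgebraicClosure ℚ) → Fin (b ^ r),
          ∀ τ : AlgebraicClosure ℚ ≃ₐ[ℚ] AlgebraicClosure ℚ,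
            (∀ φ, c ((τ : AlgebraicClosure ℚ →ₐ[ℚ] AlgebraicClosure ℚ).comp φ) = c φ) →
            ∀ φ : K i →ₐ[ℚ] AlgebraicClosure ℚ,
              (τ : AlgebraicClosure ℚ →ₐ[ℚ] AlgebraicClosure ℚ).comp φ = φ) →
        (m : ℝ) ≤ C * (D : ℝ) ^ ((r : ℝ) * (β - 1 / 2) +
          Real.log A / n * (∫ t in β..b, 1 / Real.log t) + ε) :=
  Pool.Agent.DC83.main2

end Pool.Agent.Results.MP_0b0055_nt.HalfExponent
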