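import Pool.Agent.Lib.NF76.Main

/-! Number fields of degree `n` and fixed discriminant `D`: the exponent
`(n - 2) / 4 + min (n - 2) 10 / (2 n - 2)`. -/

namespace Pool.Agent.Results.MP_0b0055_nt.Pointwise

theorem result :
    ∀ n : ℕ, 6 ≤ n → ∀ ε : ℝ, 0 < ε → ∃ C : ℝ, ∀ D : ℕ, 1 ≤ D →
      ∀ m : ℕ, ∀ (K : Fin m → Type) [∀ i, Field (K i)] [∀ i, NumberField (K i)],
        (∀ i, Module.finrank ℚ (K i) = n) →
        (∀ i, (NumberField.discr (K i)).natAbs = D) →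
        (∀ i j, i ≠ j → IsEmpty (K i ≃+* K j)) →
        (m : ℝ) ≤ C * (D : ℝ) ^ (((n : ℝ) - 2) / 4 + min ((n : ℝ) - 2) 10 / (2 * n - 2) + ε) :=
  fun n hn ε hε => Pool.Agent.NF76.main n (by omega) ε hε

end Pool.Agent.Results.MP_0b0055_nt.Pointwise
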