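import Pool.Agent.Lib.N4.All

set_option autoImplicit false

namespace Pool.Agent.Results.MP_0b0055_nt.QuarticBound

/-- The number of quartic fields of absolute discriminant `D` is `O(D ^ (5/12 + ε))`. -/
theorem result :
    ∀ ε : ℝ, 0 < ε → ∃ C : ℝ, ∀ D : ℕ, 1 ≤ D →
      ∀ m : ℕ, ∀ (K : Fin m → Type) [∀ i, Field (K i)] [∀ i, NumberField (K i)],
        (∀ i, Module.finrank ℚ (K i) = 4) →
        (∀ i, (NumberField.discr (K i)).natAbs = D) →
        (∀ i j, i ≠ j → IsEmpty (K i ≃+* K j)) →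
        (m : ℝ) ≤ C * (D : ℝ) ^ (5 / 12 + ε) :=
  Pool.Agent.Lib.N4.stTop

end Pool.Agent.Results.MP_0b0055_nt.QuarticBound
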