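import Pool.Agent.Lib.N4.AllT

set_option autoImplicit false

open NumberField

namespace Pool.Agent.Results.MP_0b0055_nt.TorsionSaving

/-- Fields with `D ^ (η θ)` ideals of prime norm at most `D ^ η` have `l`-torsion in the class
group at most `D ^ (1/2 - θ/(2 l) + ε)`, in every degree. -/
theorem result :
    ∀ (n l : ℕ) (θ ε : ℝ), 1 ≤ l → 0 < θ → 0 < ε → ∃ η₀ : ℝ, 0 < η₀ ∧ ∀ η : ℝ, 0 < η → η ≤ η₀ →
      ∃ C : ℝ, ∀ (K : Type) [Field K] [NumberField K], Module.finrank ℚ K = n →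
        ((discr K).natAbs : ℝ) ^ (η * θ) ≤
          ({P : Ideal (𝓞 K) | (Ideal.absNorm P).Prime ∧
            (Ideal.absNorm P : ℝ) ≤ ((discr K).natAbs : ℝ) ^ η}.ncard : ℝ) →
        (Nat.card {c : ClassGroup (𝓞 K) // c ^ l = 1} : ℝ) ≤
          C * ((discr K).natAbs : ℝ) ^ (1 / 2 - θ / (2 * l) + ε) := by
  intro n l θ ε hl hθ hε
  obtain ⟨η₀, h0, h⟩ := Pool.Agent.Lib.N4.stTS n l θ ε hl hθ hε
  refine ⟨η₀, h0, fun η h1 h2 => ?_⟩
  obtain ⟨C, -, hC⟩ := h η h1 h2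
  exact ⟨C, hC⟩

end Pool.Agent.Results.MP_0b0055_nt.TorsionSaving
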